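import Pool.Agent.Helper21.LQ.Defs

set_option autoImplicit false

/-! # LQ: both phases together -/

namespace Pool.Agent.Helper21.LQ

open Finset

section tst_aux

variable {R Γ : Type} [Fintype R] [DecidableEq R] [Fintype Γ] [DecidableEq Γ]

theorem tst_card (ε : ℝ) (N : Finset R) (D : ℕ) (L : R → Finset Γ) (hN : N.card ≤ D)
    (r : R) (hL : (L r).card = D) :
    hh ε N D L ≤ (L r \ Full ε N D L).card := by
  classical
  by_cases hP : IsP ε N D L
  · have h1 : hh ε N D L = N.card - (Full ε N D L).card := by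
      unfold hh
      rw [if_pos hP]
    have h2 : (L r).card - (Full ε N D L).card ≤ (L r \ Full ε N D L).card :=
      le_card_sdiff _ _
    omega
  · have h1 : hh ε N D L = 0 := by
      unfold hh
      rw [if_neg hP]
    omega

end tst_aux

theorem st_TST (hTPRE : ST_TPRE) (hTMAIN : ST_TMAIN) : ST_TST := by
  classical
  intro R T Γ I W _ _ _ _ _ _ _ _ ε LN N D L a sI v w K sW hT
  -- the lists of the first phase
  have hex : ∀ t r, ∃ S : Finset Γ, (r ∈ N t → S ⊆ L t r \ Full ε (N t) (D t) (L t) ∧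
      S.card = hh ε (N t) (D t) (L t)) := by
    intro t r
    by_cases hr : r ∈ N t
    · obtain ⟨S, hS, hc⟩ := exists_subset_card_eq
        (tst_card ε (N t) (D t) (L t) (hT.rows t) r (hT.card t r hr))
      exact ⟨S, fun _ => ⟨hS, hc⟩⟩
    · exact ⟨∅, fun h => absurd h hr⟩
  choose L₀ hL₀ using hex
  obtain ⟨g, X₀, g1, g2, g3, g4, g5, g6, g7, g8, g9, g10⟩ :=
    hTPRE R T Γ I W ε LN N D L a sI v w K sW L₀ hT (fun t r hr => (hL₀ t r hr).1)
      (fun t r hr => (hL₀ t r hr).2)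
  obtain ⟨f, X, f1, f2, f3, f4, f5, f6, f7, f8⟩ :=
    hTMAIN R T Γ I W ε LN N D L a sI v w K sW L₀ g X₀ hT (fun t r hr => (hL₀ t r hr).1)
      (fun t r hr => (hL₀ t r hr).2) g1 g2 g3 g4 g5 g7 g8 g9
  refine ⟨f, X, f1, f2, f3, f4, f5, f6, ?_, ?_⟩
  · intro i
    have h1 := g6 i
    have h2 := f7 i
    calc |lin (a i) X - ∑ r, ∑ γ, a i r γ|
        = |(lin (a i) X - lin (a i) X₀) + (lin (a i) X₀ - ∑ r, ∑ γ, a i r γ)| := by
          congr 1; ring
      _ ≤ |lin (a i) X - lin (a i) X₀| + |lin (a i) X₀ - ∑ r, ∑ γ, a i r γ| := abs_add_le _ _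
      _ ≤ 2 * dl ε * sI i := by linarith
  · intro i
    have h1 := g10 i
    have h2 := f8 i
    linarith

end Pool.Agent.Helper21.LQ
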