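import Pool.Agent.Helper21.LQ.Defs

set_option autoImplicit false

/-! # LQ: a sequence of random stars -/

namespace Pool.Agent.Helper21.LQ

open Finset

section phase_aux

variable {R Γ : Type} [Fintype R] [DecidableEq R] [Fintype Γ] [DecidableEq Γ]

/-- The invariant of the phase. -/
def phase_P (C : ℕ → R → Finset Γ) (D : ℕ → ℝ) (Good : ℕ → (R → Option Γ) → Prop)
    (X₀ base : R → Γ → ℝ) (c : ℝ) (j : ℕ) (s : (R → Γ → ℝ) × (ℕ → R → Option Γ)) : Prop :=
  (∀ i < j, Good i (s.2 i) ∧ Inj (s.2 i)) ∧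
  (∀ i < j, ∀ r γ, s.2 i r = some γ → γ ∈ C i r ∧ X₀ r γ ≠ 0 ∧ s.1 r γ = 0) ∧
  (∀ i < j, ∀ i' < j, i ≠ i' → ∀ r γ, s.2 i r = some γ → s.2 i' r ≠ some γ) ∧
  (∀ r γ, X₀ r γ = 0 → s.1 r γ = 0) ∧
  (∀ r γ, s.1 r γ = 0 ∨ (1 ≤ s.1 r γ ∧
    base r γ - c * ∑ i ∈ range j, (if γ ∈ C i r then 1 / D i else 0) ≤ 1 / s.1 r γ))

theorem phase_P_zero (C : ℕ → R → Finset Γ) (D : ℕ → ℝ) (Good : ℕ → (R → Option Γ) → Prop)
    (X₀ base : R → Γ → ℝ) (c : ℝ)
    (h : ∀ r γ, X₀ r γ = 0 ∨ (1 ≤ X₀ r γ ∧ base r γ ≤ 1 / X₀ r γ)) :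
    phase_P C D Good X₀ base c 0 (X₀, fun _ _ => none) := by
  refine ⟨fun i hi => absurd hi (Nat.not_lt_zero _), fun i hi => absurd hi (Nat.not_lt_zero _),
    fun i hi => absurd hi (Nat.not_lt_zero _), fun r γ h => h, fun r γ => ?_⟩
  rcases h r γ with h | ⟨h1, h2⟩
  · exact Or.inl h
  · refine Or.inr ⟨h1, ?_⟩
    simpa using h2

theorem phase_post_zero (X y : R → Γ → ℝ) (f : R → Option Γ) (r : R) (γ : Γ) (h : X r γ = 0) :
    post X y f r γ = 0 := by
  unfold post
  split_ifs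
  · rfl
  · rw [h, zero_div]

theorem phase_P_succ (C : ℕ → R → Finset Γ) (D : ℕ → ℝ) (Good : ℕ → (R → Option Γ) → Prop)
    (X₀ base : R → Γ → ℝ) (c : ℝ) (j : ℕ) (s : (R → Γ → ℝ) × (ℕ → R → Option Γ))
    (hs : phase_P C D Good X₀ base c j s) (y : R → Γ → ℝ) (f : R → Option Γ)
    (hg : Good j f) (hi : Inj f) (hsupp : ∀ r γ, f r = some γ → γ ∈ C j r ∧ s.1 r γ ≠ 0)
    (hupd : ∀ r γ b, (s.1 r γ = 0 ∨ (1 ≤ s.1 r γ ∧ b ≤ 1 / s.1 r γ)) →
      (post s.1 y f r γ = 0 ∨ (1 ≤ post s.1 y f r γ ∧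
        b - c * (if γ ∈ C j r then 1 / D j else 0) ≤ 1 / post s.1 y f r γ))) :
    phase_P C D Good X₀ base c (j + 1) (post s.1 y f, Function.update s.2 j f) := by
  obtain ⟨h1, h2, h3, h4, h5⟩ := hs
  refine ⟨?_, ?_, ?_, ?_, ?_⟩
  · intro i hij
    by_cases e : i = j
    · subst e
      simp only [Function.update_self]
      exact ⟨hg, hi⟩
    · simp only [Function.update_of_ne e]
      exact h1 i (by omega)
  · intro i hij r γ hf
    by_cases e : i = j
    · subst e
      simp only [Function.update_self] at hf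
      refine ⟨(hsupp r γ hf).1, fun h0 => (hsupp r γ hf).2 (h4 r γ h0), ?_⟩
      simp only [post, hf, if_true]
    · simp only [Function.update_of_ne e] at hf
      obtain ⟨a1, a2, a3⟩ := h2 i (by omega) r γ hf
      exact ⟨a1, a2, phase_post_zero _ _ _ _ _ a3⟩
  · intro i hij i' hij' hne r γ hf
    by_cases e : i = j
    · have e' : i' ≠ j := fun h => hne (by rw [e, h])
      subst e
      simp only [Function.update_self] at hf
      simp only [Function.update_of_ne e']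
      intro hf'
      exact (hsupp r γ hf).2 (h2 i' (by omega) r γ hf').2.2
    · simp only [Function.update_of_ne e] at hf
      by_cases e' : i' = j
      · subst e'
        simp only [Function.update_self]
        intro hf'
        exact (hsupp r γ hf').2 (h2 i (by omega) r γ hf).2.2
      · simp only [Function.update_of_ne e']
        exact h3 i (by omega) i' (by omega) hne r γ hf
  · intro r γ h0
    exact phase_post_zero _ _ _ _ _ (h4 r γ h0)
  · intro r γ
    have := hupd r γ _ (h5 r γ)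
    rcases this with h | ⟨ha, hb⟩
    · exact Or.inl h
    · refine Or.inr ⟨ha, ?_⟩
      rw [sum_range_succ, mul_add]
      simp only at hb ⊢
      linarith

theorem phase_bound (C : ℕ → R → Finset Γ) (D : ℕ → ℝ) (Good : ℕ → (R → Option Γ) → Prop)
    (X₀ base : R → Γ → ℝ) (c Xm : ℝ) (m j : ℕ) (hj : j ≤ m)
    (s : (R → Γ → ℝ) × (ℕ → R → Option Γ))
    (hs : phase_P C D Good X₀ base c j s) (hXm : 1 ≤ Xm) (hc : 1 ≤ c)
    (hD : ∀ i < m, 0 < D i)
    (hb : ∀ r γ, c * ∑ j ∈ range m, (if γ ∈ C j r then 1 / D j else 0) + 1 / Xm ≤ base r γ) :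
    ∀ r γ, s.1 r γ = 0 ∨ (1 ≤ s.1 r γ ∧ s.1 r γ ≤ Xm) := by
  intro r γ
  rcases hs.2.2.2.2 r γ with h | ⟨h1, h2⟩
  · exact Or.inl h
  · refine Or.inr ⟨h1, ?_⟩
    have hle : ∑ i ∈ range j, (if γ ∈ C i r then 1 / D i else 0) ≤
        ∑ i ∈ range m, (if γ ∈ C i r then 1 / D i else 0) := by
      apply sum_le_sum_of_subset_of_nonneg
      · intro i hi
        rw [mem_range] at hi ⊢
        omega
      · intro i hi _
        rw [mem_range] at hi
        have := hD i hi
        split_ifs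
        · positivity
        · exact le_rfl
    have h3 := hb r γ
    have h4 : c * ∑ i ∈ range j, (if γ ∈ C i r then 1 / D i else 0) ≤
        c * ∑ i ∈ range m, (if γ ∈ C i r then 1 / D i else 0) :=
      mul_le_mul_of_nonneg_left hle (by linarith)
    have h5 : 1 / Xm ≤ 1 / s.1 r γ := by linarith
    have h6 : (0 : ℝ) < s.1 r γ := by linarith
    rwa [one_div_le_one_div (by linarith) h6] at h5

theorem phase_sum_le (m : ℕ) (D : ℕ → ℝ) (N : ℕ → Finset R)
    (hN : ∀ r, ∑ j ∈ range m, (if r ∈ N j then 1 / D j else 0) ≤ 1) (S : Finset R) (s : ℝ)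
    (hS : (S.card : ℝ) ≤ s) :
    ∑ j ∈ range m, ∑ r ∈ S, (if r ∈ N j then 1 / D j else 0) ≤ s := by
  rw [sum_comm]
  calc ∑ r ∈ S, ∑ j ∈ range m, (if r ∈ N j then 1 / D j else 0) ≤ ∑ r ∈ S, (1 : ℝ) :=
        sum_le_sum fun r _ => hN r
    _ = S.card := by simp
    _ ≤ s := hS

theorem phase_sum_lin (m : ℕ) (D : ℕ → ℝ) (N : ℕ → Finset R)
    (hN : ∀ r, ∑ j ∈ range m, (if r ∈ N j then 1 / D j else 0) ≤ 1) (a : R → Γ → ℝ)
    (ha : ∀ r γ, 0 ≤ a r γ) (s : ℝ) (hs : ∑ r, ∑ γ, a r γ ≤ s) :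
    ∑ j ∈ range m, ∑ r ∈ N j, ∑ γ, a r γ / D j ≤ s := by
  have h1 : ∀ j ∈ range m, ∑ r ∈ N j, ∑ γ, a r γ / D j =
      ∑ r, (∑ γ, a r γ) * (if r ∈ N j then 1 / D j else 0) := by
    intro j _
    rw [← sum_filter_add_sum_filter_not univ (fun r => r ∈ N j)
      (fun r => (∑ γ, a r γ) * (if r ∈ N j then 1 / D j else 0))]
    have e1 : ∑ r ∈ univ.filter (fun r => ¬ r ∈ N j),
        (∑ γ, a r γ) * (if r ∈ N j then 1 / D j else 0) = 0 := by
      apply sum_eq_zero
      intro r hr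
      rw [mem_filter] at hr
      rw [if_neg hr.2, mul_zero]
    rw [e1, add_zero]
    have e2 : univ.filter (fun r => r ∈ N j) = N j := by
      ext r; simp
    rw [e2]
    apply sum_congr rfl
    intro r hr
    rw [if_pos hr, sum_mul]
    apply sum_congr rfl
    intro γ _
    rw [mul_one_div]
  rw [sum_congr rfl h1, sum_comm]
  calc ∑ r, ∑ j ∈ range m, (∑ γ, a r γ) * (if r ∈ N j then 1 / D j else 0)
      = ∑ r, (∑ γ, a r γ) * ∑ j ∈ range m, (if r ∈ N j then 1 / D j else 0) := by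
        apply sum_congr rfl
        intro r _
        rw [mul_sum]
    _ ≤ ∑ r, (∑ γ, a r γ) * 1 := by
        apply sum_le_sum
        intro r _
        exact mul_le_mul_of_nonneg_left (hN r) (sum_nonneg fun γ _ => ha r γ)
    _ = ∑ r, ∑ γ, a r γ := by simp
    _ ≤ s := hs

end phase_aux

/-- The arithmetic of the potential. -/
theorem phase_arith (Xm δ LN s : ℝ) (hXm : 1 ≤ Xm) (hδ : 0 < δ) (hδ1 : δ ≤ 1) (hLN : 1 ≤ LN)
    (h : 4000 * Xm ^ 5 * LN ≤ δ ^ 2 * s) :
    let lam := δ / (784 * Xm ^ 5)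
    0 < s ∧ 8 * Xm ^ 3 * lam ^ 2 * s + LN ≤ lam * (δ * s) ∧
    392 * Xm ^ 5 * lam ^ 2 * s + LN ≤ lam * (δ * s) ∧
    8 * Xm ^ 3 * lam + 196 * Xm ^ 5 * lam ^ 2 * s * 2 + LN ≤ lam * (δ * s) := by
  intro lam
  have hX0 : 0 < Xm := by linarith
  have hX3 : 1 ≤ Xm ^ 3 := one_le_pow₀ hXm
  have hX5 : 1 ≤ Xm ^ 5 := one_le_pow₀ hXm
  have hX35 : Xm ^ 3 ≤ Xm ^ 5 := pow_le_pow_right₀ hXm (by norm_num)
  have hlam : lam * Xm ^ 5 = δ / 784 := by
    simp only [lam]
    field_simp
  have hlam0 : 0 < lam := by positivity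
  have hs : 0 < s := by
    by_contra hn
    have : δ ^ 2 * s ≤ 0 := mul_nonpos_of_nonneg_of_nonpos (by positivity) (by linarith)
    have h2 : 0 < 4000 * Xm ^ 5 * LN := by positivity
    linarith
  have hlams : 0 < lam * s := mul_pos hlam0 hs
  -- main quantity
  have hkey : 784 * Xm ^ 5 * (lam * (δ * s)) = δ ^ 2 * s := by
    have : 784 * Xm ^ 5 * (lam * (δ * s)) = 784 * (lam * Xm ^ 5) * (δ * s) := by ring
    rw [this, hlam]
    ring
  have hLNle : 4 * LN ≤ lam * (δ * s) := by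
    have h1 : 4000 * Xm ^ 5 * LN ≤ 784 * Xm ^ 5 * (lam * (δ * s)) := by rw [hkey]; exact h
    have h2 : Xm ^ 5 * (4000 * LN) ≤ Xm ^ 5 * (784 * (lam * (δ * s))) := by linarith
    have h3 := le_of_mul_le_mul_left h2 (by positivity)
    linarith
  have hc : 392 * Xm ^ 5 * lam ^ 2 * s = lam * (δ * s) / 2 := by
    have : 392 * Xm ^ 5 * lam ^ 2 * s = 392 * (lam * Xm ^ 5) * (lam * s) := by ring
    rw [this, hlam]
    ring
  have hpos : 0 < lam * (δ * s) := by positivity
  have h8 : 8 * Xm ^ 3 * lam ≤ lam * (δ * s) / 4 := by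
    have h1 : 4000 * Xm ^ 5 ≤ δ * s := by
      have h2 : 4000 * Xm ^ 5 * 1 ≤ 4000 * Xm ^ 5 * LN :=
        mul_le_mul_of_nonneg_left hLN (by positivity)
      have h3 : δ ^ 2 * s ≤ δ * s := by
        have : δ ^ 2 * s = δ * (δ * s) := by ring
        rw [this]
        have h4 : 0 < δ * s := by positivity
        nlinarith
      linarith
    have h2 : 8 * Xm ^ 3 ≤ δ * s / 4 := by linarith
    calc 8 * Xm ^ 3 * lam ≤ (δ * s / 4) * lam := mul_le_mul_of_nonneg_right h2 hlam0.le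
      _ = lam * (δ * s) / 4 := by ring
  refine ⟨hs, ?_, ?_, ?_⟩
  · have h1 : 8 * Xm ^ 3 * lam ^ 2 * s ≤ 392 * Xm ^ 5 * lam ^ 2 * s := by
      have : 8 * Xm ^ 3 ≤ 392 * Xm ^ 5 := by linarith
      have h2 : 0 ≤ lam ^ 2 * s := by positivity
      calc 8 * Xm ^ 3 * lam ^ 2 * s = 8 * Xm ^ 3 * (lam ^ 2 * s) := by ring
        _ ≤ 392 * Xm ^ 5 * (lam ^ 2 * s) := mul_le_mul_of_nonneg_right this h2
        _ = _ := by ring
    linarith
  · linarith
  · have h1 : 196 * Xm ^ 5 * lam ^ 2 * s * 2 = lam * (δ * s) / 2 := by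
      rw [← hc]; ring
    linarith

theorem st_PHASE (hPROC : ST_PROC) (hPSTEP : ST_PSTEP) : ST_PHASE := by
  intro R Γ I Q W _ _ _ _ _ _ _ m D N C Good X₀ base c Xm δ LN a sI e NQ q₁ q₂ sQ v w K sW
    hXm hc1 hc2 hδ hδ1 hLN hcard hD hCN hN hX₀ hbase ha haS hsI haone hq hNQ hsQ hvw hK hsW
    hsolve
  have hXm0 : 0 < Xm := by linarith
  have hDpos : ∀ j < m, 0 < D j := fun j hj => by linarith [hD j hj]
  set lam : ℝ := δ / (784 * Xm ^ 5) with hlamdef
  have hlam0 : 0 < lam := by positivity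
  have hX2 : 1 ≤ Xm ^ 2 := one_le_pow₀ hXm
  have hX5 : 1 ≤ Xm ^ 5 := one_le_pow₀ hXm
  have hX25 : Xm ^ 2 ≤ Xm ^ 5 := pow_le_pow_right₀ hXm (by norm_num)
  have hX15 : Xm ≤ Xm ^ 5 := by
    calc Xm = Xm ^ 1 := (pow_one _).symm
      _ ≤ Xm ^ 5 := pow_le_pow_right₀ hXm (by norm_num)
  have hlamX : lam * Xm ^ 5 = δ / 784 := by
    rw [hlamdef]
    field_simp
  have hl14 : lam * (14 * Xm ^ 2) ≤ 1 := by
    have h1 : lam * (14 * Xm ^ 2) ≤ 14 * (lam * Xm ^ 5) := by
      have := mul_le_mul_of_nonneg_left hX25 hlam0.le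
      linarith
    rw [hlamX] at h1
    linarith
  have hl2 : lam * (2 * Xm) ≤ 1 := by
    have h1 : lam * (2 * Xm) ≤ 2 * (lam * Xm ^ 5) := by
      have := mul_le_mul_of_nonneg_left hX15 hlam0.le
      linarith
    rw [hlamX] at h1
    linarith
  -- the statistics
  let Z : ((Bool × I) ⊕ (Q ⊕ W)) → ℕ → ((R → Γ → ℝ) × (ℕ → R → Option Γ)) → ℝ :=
    fun i _ s => Sum.elim (fun bi : Bool × I => if bi.1 then lin (a bi.2) s.1 else
      -lin (a bi.2) s.1) (Sum.elim (fun q => cov (NQ q) (q₁ q) (q₂ q) s.1)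
        (fun i => -edg (v i) (w i) (K i) s.1)) i
  let z : ((Bool × I) ⊕ (Q ⊕ W)) → ℝ :=
    fun i => Sum.elim (fun bi : Bool × I => (if bi.1 then lin (a bi.2) X₀ else
      -lin (a bi.2) X₀) + δ * sI bi.2) (Sum.elim
        (fun q => cov (NQ q) (q₁ q) (q₂ q) X₀ + δ * sQ q)
        (fun i => -edg (v i) (w i) (K i) X₀ + δ * sW i)) i
  let vv : ((Bool × I) ⊕ (Q ⊕ W)) → ℕ → ℝ :=
    fun i j => Sum.elim (fun bi : Bool × I => 8 * Xm ^ 3 * lam ^ 2 *
      ∑ r ∈ N j, ∑ γ, a bi.2 r γ / D j) (Sum.elim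
        (fun q => 392 * Xm ^ 5 * lam ^ 2 * ∑ r ∈ NQ q, (if r ∈ N j then 1 / D j else 0))
        (fun i => 8 * Xm ^ 3 * lam * (if v i ∈ N j then 1 / D j else 0) +
          196 * Xm ^ 5 * lam ^ 2 * (K i).card *
          ((if v i ∈ N j then 1 / D j else 0) + (if w i ∈ N j then 1 / D j else 0)))) i
  let ee : ((Bool × I) ⊕ (Q ⊕ W)) → ℕ :=
    fun i => Sum.elim (fun bi : Bool × I => e bi.2) (fun _ => m) i
  have hif : ∀ j < m, ∀ r, 0 ≤ (if r ∈ N j then 1 / D j else 0) := by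
    intro j hj r
    have := hDpos j hj
    split_ifs
    · positivity
    · exact le_rfl
  have key := hPROC ((R → Γ → ℝ) × (ℕ → R → Option Γ)) ((Bool × I) ⊕ (Q ⊕ W)) m
    (phase_P C D Good X₀ base c) Z (fun _ => lam) z vv ee (X₀, fun _ _ => none) LN
    (phase_P_zero C D Good X₀ base c hX₀) (fun _ => hlam0) ?_ ?_ ?_ ?_
  · obtain ⟨s, hP, hZ⟩ := key
    obtain ⟨h1, h2, h3, h4, h5⟩ := hP
    refine ⟨s.2, s.1, h1, h2, h3, h4, h5, ?_, ?_, ?_⟩
    · intro i hi
      have ht := hZ (Sum.inl (true, i)) hi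
      have hf := hZ (Sum.inl (false, i)) hi
      simp only [Z, z, Sum.elim_inl, if_true, Bool.false_eq_true, if_false] at ht hf
      rw [abs_le]
      constructor <;> linarith
    · intro q
      have h := hZ (Sum.inr (Sum.inl q)) le_rfl
      simpa only [Z, z, Sum.elim_inl, Sum.elim_inr] using h
    · intro i
      have h := hZ (Sum.inr (Sum.inr i)) le_rfl
      simp only [Z, z, Sum.elim_inr] at h
      linarith
  · -- cardinality
    simp only [Fintype.card_sum, Fintype.card_prod, Fintype.card_bool]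
    push_cast
    linarith
  · -- nonnegativity
    intro i j hj
    have hDj := hDpos j hj
    rcases i with ⟨b, i⟩ | q | i
    · simp only [vv, Sum.elim_inl]
      have : 0 ≤ ∑ r ∈ N j, ∑ γ, a i r γ / D j :=
        sum_nonneg fun r _ => sum_nonneg fun γ _ => div_nonneg (ha i r γ) hDj.le
      positivity
    · simp only [vv, Sum.elim_inl, Sum.elim_inr]
      have : 0 ≤ ∑ r ∈ NQ q, (if r ∈ N j then 1 / D j else 0) :=
        sum_nonneg fun r _ => hif j hj r
      positivity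
    · simp only [vv, Sum.elim_inr]
      have h1 := hif j hj (v i)
      have h2 := hif j hj (w i)
      positivity
  · -- the budget
    intro i
    rcases i with ⟨b, i⟩ | q | i
    · obtain ⟨hs, A1, -, -⟩ := phase_arith Xm δ LN (sI i) hXm hδ hδ1 hLN (hsI i)
      have hS := phase_sum_lin m D N hN (a i) (ha i) (sI i) (haS i)
      have hv : ∑ j ∈ range m, vv (Sum.inl (b, i)) j ≤ 8 * Xm ^ 3 * lam ^ 2 * sI i := by
        simp only [vv, Sum.elim_inl]
        rw [← mul_sum]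
        exact mul_le_mul_of_nonneg_left hS (by positivity)
      simp only [← hlamdef] at A1
      have hz : z (Sum.inl (b, i)) = Z (Sum.inl (b, i)) 0 (X₀, fun _ _ => none) + δ * sI i := by
        simp only [z, Z, Sum.elim_inl]
      rw [hz, mul_add]
      linarith
    · obtain ⟨hs, -, A2, -⟩ := phase_arith Xm δ LN (sQ q) hXm hδ hδ1 hLN (hsQ q)
      have hS := phase_sum_le m D N hN (NQ q) (sQ q) (hNQ q)
      have hv : ∑ j ∈ range m, vv (Sum.inr (Sum.inl q)) j ≤ 392 * Xm ^ 5 * lam ^ 2 * sQ q := by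
        simp only [vv, Sum.elim_inl, Sum.elim_inr]
        rw [← mul_sum]
        exact mul_le_mul_of_nonneg_left hS (by positivity)
      simp only [← hlamdef] at A2
      have hz : z (Sum.inr (Sum.inl q)) =
          Z (Sum.inr (Sum.inl q)) 0 (X₀, fun _ _ => none) + δ * sQ q := by
        simp only [z, Z, Sum.elim_inl, Sum.elim_inr]
      rw [hz, mul_add]
      linarith
    · obtain ⟨hs, -, -, A3⟩ := phase_arith Xm δ LN (sW i) hXm hδ hδ1 hLN (hsW i)
      have hv : ∑ j ∈ range m, vv (Sum.inr (Sum.inr i)) j ≤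
          8 * Xm ^ 3 * lam + 196 * Xm ^ 5 * lam ^ 2 * sW i * 2 := by
        simp only [vv, Sum.elim_inr]
        rw [sum_add_distrib, ← mul_sum, ← mul_sum, sum_add_distrib]
        have h1 := hN (v i)
        have h2 := hN (w i)
        have h10 : 0 ≤ ∑ j ∈ range m, (if v i ∈ N j then 1 / D j else 0) :=
          sum_nonneg fun j hj => hif j (mem_range.1 hj) _
        have h20 : 0 ≤ ∑ j ∈ range m, (if w i ∈ N j then 1 / D j else 0) :=
          sum_nonneg fun j hj => hif j (mem_range.1 hj) _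
        have hKi := hK i
        have hK0 : (0 : ℝ) ≤ ((K i).card : ℝ) := Nat.cast_nonneg _
        have e1 : 8 * Xm ^ 3 * lam * ∑ j ∈ range m, (if v i ∈ N j then 1 / D j else 0) ≤
            8 * Xm ^ 3 * lam * 1 := mul_le_mul_of_nonneg_left h1 (by positivity)
        have e2 : 196 * Xm ^ 5 * lam ^ 2 * (K i).card *
            (∑ j ∈ range m, (if v i ∈ N j then 1 / D j else 0) +
              ∑ j ∈ range m, (if w i ∈ N j then 1 / D j else 0)) ≤
            196 * Xm ^ 5 * lam ^ 2 * sW i * 2 := by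
          apply mul_le_mul
          · exact mul_le_mul_of_nonneg_left hKi (by positivity)
          · linarith
          · linarith
          · exact mul_nonneg (by positivity) hs.le
        linarith
      simp only [← hlamdef] at A3
      have hz : z (Sum.inr (Sum.inr i)) =
          Z (Sum.inr (Sum.inr i)) 0 (X₀, fun _ _ => none) + δ * sW i := by
        simp only [z, Z, Sum.elim_inr]
      rw [hz, mul_add]
      linarith
  · -- the step
    intro j hj s hP hZ
    have hbd := phase_bound C D Good X₀ base c Xm m j hj.le s hP hXm hc1 hDpos hbase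
    have hlinI : ∀ i, j ≤ e i → |lin (a i) s.1 - lin (a i) X₀| ≤ δ * sI i := by
      intro i hi
      have ht := hZ (Sum.inl (true, i)) hi
      have hf := hZ (Sum.inl (false, i)) hi
      simp only [Z, z, Sum.elim_inl, if_true, Bool.false_eq_true, if_false] at ht hf
      rw [abs_le]
      constructor <;> linarith
    have hcovQ : ∀ q, cov (NQ q) (q₁ q) (q₂ q) s.1 ≤ cov (NQ q) (q₁ q) (q₂ q) X₀ + δ * sQ q := by
      intro q
      have h := hZ (Sum.inr (Sum.inl q)) hj.le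
      simpa only [Z, z, Sum.elim_inl, Sum.elim_inr] using h
    have hedgW : ∀ i, edg (v i) (w i) (K i) X₀ - δ * sW i ≤ edg (v i) (w i) (K i) s.1 := by
      intro i
      have h := hZ (Sum.inr (Sum.inr i)) hj.le
      simp only [Z, z, Sum.elim_inr] at h
      linarith
    obtain ⟨y, p, hch⟩ := hsolve j hj s.1 hbd hP.2.2.2.1 hlinI hcovQ hedgW
    obtain ⟨-, S1, S2, S3, S4, S5⟩ := hPSTEP R Γ s.1 y p c (D j) Xm (N j) (C j) (Good j) hXm
      (by linarith) hc2 (hD j hj) (hCN j) hbd hch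
    refine ⟨R → Option Γ, inferInstance, p, fun f => (post s.1 y f, Function.update s.2 j f),
      hch.dist, ?_, ?_⟩
    · intro f hf
      exact phase_P_succ C D Good X₀ base c j s hP y f (hch.good f hf) (hch.inj f hf)
        (S1 f hf) (S2 f)
    · intro i hi
      rcases i with ⟨b, i⟩ | q | i
      · have hone := haone i j hj hi
        cases b
        · have h := S3 (a i) (-lam) (ha i) hone (by rw [abs_neg, abs_of_pos hlam0]; exact hl2)
          simp only [Z, vv, Sum.elim_inl, Bool.false_eq_true, if_false]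
          have e1 : ∀ f, lam * (-lin (a i) (post s.1 y f) - -lin (a i) s.1) =
              -lam * (lin (a i) (post s.1 y f) - lin (a i) s.1) := fun f => by ring
          simp only [e1]
          rw [neg_sq] at h
          exact h
        · have h := S3 (a i) lam (ha i) hone (by rw [abs_of_pos hlam0]; exact hl2)
          simp only [Z, vv, Sum.elim_inl, if_true]
          exact h
      · have h := S4 (NQ q) (q₁ q) (q₂ q) lam (hq q) hlam0.le hl14
        simp only [Z, vv, Sum.elim_inl, Sum.elim_inr]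
        exact h
      · have h := S5 (v i) (w i) (K i) lam (hvw i) hlam0.le hl14
        simp only [Z, vv, Sum.elim_inr]
        have e1 : ∀ f, lam * (-edg (v i) (w i) (K i) (post s.1 y f) -
            -edg (v i) (w i) (K i) s.1) =
            lam * (edg (v i) (w i) (K i) s.1 - edg (v i) (w i) (K i) (post s.1 y f)) :=
          fun f => by ring
        simp only [e1]
        exact h

end Pool.Agent.Helper21.LQ
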